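import Mathlib
import Pool.Agent.H.MP_4e4c79_lc.B

set_option autoImplicit false

namespace Pool.Agent.Results.MP_4e4c79_lc.No

open TopologicalSpace Pool.Agent.H.MP_4e4c79_lc

/-- Terms of the signature of real Banach spaces in `n` variables. -/
inductive Tm (n : ℕ) : Type
  | var : Fin n → Tm n
  | zero : Tm n
  | add : Tm n → Tm n → Tm n
  | smul : ℝ → Tm n → Tm n

/-- Formulas of continuous logic in the signature of real Banach spaces with `n` free variables:
atomic formulas `‖t‖`, continuous connectives, and the quantifiers `sup` and `inf`. -/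
inductive Fm : ℕ → Type
  | norm {n : ℕ} : Tm n → Fm n
  | un {n : ℕ} : C(ℝ, ℝ) → Fm n → Fm n
  | bin {n : ℕ} : C(ℝ × ℝ, ℝ) → Fm n → Fm n → Fm n
  | sup {n : ℕ} : Fm (n + 1) → Fm n
  | inf {n : ℕ} : Fm (n + 1) → Fm n

/-- Value of a term. -/
def Tm.eval {n : ℕ} {M : Type} [AddCommGroup M] [Module ℝ M] (v : Fin n → M) : Tm n → M
  | .var i => v i
  | .zero => 0
  | .add s t => s.eval v + t.eval v
  | .smul c t => c • t.eval v

/-- Value of a formula; the quantifiers range over the closed unit ball. -/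
noncomputable def Fm.eval {M : Type} [NormedAddCommGroup M] [NormedSpace ℝ M] :
    {n : ℕ} → Fm n → (Fin n → M) → ℝ
  | _, .norm t, v => ‖t.eval v‖
  | _, .un f φ, v => f (φ.eval v)
  | _, .bin f φ ψ, v => f (φ.eval v, ψ.eval v)
  | _, .sup φ, v => ⨆ x : Metric.closedBall (0 : M) 1, φ.eval (Fin.cons x.1 v)
  | _, .inf φ, v => ⨅ x : Metric.closedBall (0 : M) 1, φ.eval (Fin.cons x.1 v)

/-- `M` is a model of the theory `T`: every sentence of `T` has the value `0` in `M`. -/
def Models (M : Type) [NormedAddCommGroup M] [NormedSpace ℝ M] (T : Set (Fm 0)) : Prop :=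
  ∀ σ ∈ T, σ.eval (M := M) ![] = 0

theorem eval_map {n : ℕ} {M N : Type} [AddCommGroup M] [Module ℝ M] [AddCommGroup N] [Module ℝ N]
    (f : M →ₗ[ℝ] N) (v : Fin n → M) (t : Tm n) : f (t.eval v) = t.eval (fun i => f (v i)) := by
  induction t with
  | var i => rfl
  | zero => exact map_zero f
  | add s t hs ht => simp only [Tm.eval, map_add, hs, ht]
  | smul c t ht => simp only [Tm.eval, map_smul, ht]

section
variable {M : Type} [NormedAddCommGroup M] [NormedSpace ℝ M]

theorem tm_bdd {n : ℕ} (t : Tm n) :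
    ∃ B : ℝ, ∀ v : Fin n → M, (∀ i, ‖v i‖ ≤ 1) → ‖t.eval v‖ ≤ B := by
  induction t with
  | var i => exact ⟨1, fun v hv => hv i⟩
  | zero => exact ⟨0, fun v _ => by simp [Tm.eval]⟩
  | add s t hs ht =>
    obtain ⟨B, hB⟩ := hs
    obtain ⟨B', hB'⟩ := ht
    exact ⟨B + B', fun v hv => (norm_add_le _ _).trans (add_le_add (hB v hv) (hB' v hv))⟩
  | smul c t ht =>
    obtain ⟨B, hB⟩ := ht
    refine ⟨‖c‖ * B, fun v hv => ?_⟩
    simp only [Tm.eval, norm_smul]
    exact mul_le_mul_of_nonneg_left (hB v hv) (norm_nonneg c)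

omit [NormedSpace ℝ M] in
theorem cons_ball {n : ℕ} {v : Fin n → M} (hv : ∀ i, ‖v i‖ ≤ 1) (x : Metric.closedBall (0 : M) 1) :
    ∀ i, ‖(Fin.cons x.1 v : Fin (n + 1) → M) i‖ ≤ 1 := by
  intro i
  refine Fin.cases ?_ (fun j => ?_) i
  · exact mem_closedBall_zero_iff.1 x.2
  · simpa using hv j

theorem ballNonempty : Nonempty (Metric.closedBall (0 : M) 1) := ⟨⟨0, by simp⟩⟩

attribute [local instance] ballNonempty

theorem fm_bdd {n : ℕ} (φ : Fm n) :
    ∃ B : ℝ, ∀ v : Fin n → M, (∀ i, ‖v i‖ ≤ 1) → |φ.eval v| ≤ B := by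
  induction φ with
  | norm t =>
    obtain ⟨B, hB⟩ := tm_bdd (M := M) t
    exact ⟨B, fun v hv => by simpa [Fm.eval] using hB v hv⟩
  | un f φ h =>
    obtain ⟨B, hB⟩ := h
    obtain ⟨C, hC⟩ := (isCompact_Icc (a := -B) (b := B)).exists_bound_of_continuousOn
      f.continuous.continuousOn
    exact ⟨C, fun v hv => hC _ (abs_le.1 (hB v hv))⟩
  | bin f φ ψ h h' =>
    obtain ⟨B, hB⟩ := h
    obtain ⟨B', hB'⟩ := h'
    obtain ⟨C, hC⟩ := ((isCompact_Icc (a := -B) (b := B)).prod
      (isCompact_Icc (a := -B') (b := B'))).exists_bound_of_continuousOn f.continuous.continuousOn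
    exact ⟨C, fun v hv => hC _ ⟨abs_le.1 (hB v hv), abs_le.1 (hB' v hv)⟩⟩
  | sup φ h =>
    obtain ⟨B, hB⟩ := h
    refine ⟨B, fun v hv => abs_le.2 ⟨?_, ciSup_le fun x => (abs_le.1 (hB _ (cons_ball hv x))).2⟩⟩
    refine le_ciSup_of_le ⟨B, ?_⟩ ⟨0, by simp⟩ (abs_le.1 (hB _ (cons_ball hv _))).1
    rintro _ ⟨x, rfl⟩
    exact (abs_le.1 (hB _ (cons_ball hv x))).2
  | inf φ h =>
    obtain ⟨B, hB⟩ := h
    refine ⟨B, fun v hv => abs_le.2 ⟨le_ciInf fun x => (abs_le.1 (hB _ (cons_ball hv x))).1, ?_⟩⟩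
    refine ciInf_le_of_le ⟨-B, ?_⟩ ⟨0, by simp⟩ (abs_le.1 (hB _ (cons_ball hv _))).2
    rintro _ ⟨x, rfl⟩
    exact (abs_le.1 (hB _ (cons_ball hv x))).1

/-- closure under `sup` -/
def supAll : (m : ℕ) → Fm m → Fm 0
  | 0, φ => φ
  | m + 1, φ => supAll m φ.sup

/-- closure under `inf` -/
def infAll : (m : ℕ) → Fm m → Fm 0
  | 0, φ => φ
  | m + 1, φ => infAll m φ.inf

theorem le_supAll (m : ℕ) (φ : Fm m) (v : Fin m → M) (hv : ∀ i, ‖v i‖ ≤ 1) :
    φ.eval v ≤ (supAll m φ).eval (M := M) ![] := by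
  induction m with
  | zero => exact le_of_eq (by rw [Subsingleton.elim v ![]]; rfl)
  | succ m ih =>
    refine le_trans ?_ (ih φ.sup (Fin.tail v) fun i => hv _)
    obtain ⟨B, hB⟩ := fm_bdd (M := M) φ
    refine le_ciSup_of_le ⟨B, ?_⟩ (⟨v 0, by simpa using hv 0⟩ : Metric.closedBall (0 : M) 1)
      (by simp)
    rintro _ ⟨x, rfl⟩
    exact (abs_le.1 (hB _ (cons_ball (fun i => hv _) x))).2

theorem supAll_le (m : ℕ) (φ : Fm m) (c : ℝ)
    (h : ∀ v : Fin m → M, (∀ i, ‖v i‖ ≤ 1) → φ.eval v ≤ c) :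
    (supAll m φ).eval (M := M) ![] ≤ c := by
  induction m with
  | zero => exact h _ fun i => i.elim0
  | succ m ih => exact ih φ.sup fun v hv => ciSup_le fun x => h _ (cons_ball hv x)

theorem infAll_le (m : ℕ) (φ : Fm m) (v : Fin m → M) (hv : ∀ i, ‖v i‖ ≤ 1) :
    (infAll m φ).eval (M := M) ![] ≤ φ.eval v := by
  induction m with
  | zero => exact le_of_eq (by rw [Subsingleton.elim v ![]]; rfl)
  | succ m ih =>
    refine le_trans (ih φ.inf (Fin.tail v) fun i => hv _) ?_
    obtain ⟨B, hB⟩ := fm_bdd (M := M) φ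
    refine ciInf_le_of_le ⟨-B, ?_⟩ (⟨v 0, by simpa using hv 0⟩ : Metric.closedBall (0 : M) 1)
      (by simp)
    rintro _ ⟨x, rfl⟩
    exact (abs_le.1 (hB _ (cons_ball (fun i => hv _) x))).1

theorem le_infAll (m : ℕ) (φ : Fm m) (c : ℝ)
    (h : ∀ v : Fin m → M, (∀ i, ‖v i‖ ≤ 1) → c ≤ φ.eval v) :
    c ≤ (infAll m φ).eval (M := M) ![] := by
  induction m with
  | zero => exact h _ fun i => i.elim0
  | succ m ih => exact ih φ.inf fun v hv => le_ciInf fun x => h _ (cons_ball hv x)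

/-- linear combination of two formulas -/
def comb {n : ℕ} (a b : ℝ) (φ ψ : Fm n) : Fm n :=
  .bin ⟨fun p => a * p.1 + b * p.2, by fun_prop⟩ φ ψ

/-- sum of a list of formulas -/
def sumL {n : ℕ} : List (Fm n) → Fm n
  | [] => .norm .zero
  | φ :: L => comb 1 1 φ (sumL L)

theorem eval_sumL {n : ℕ} (L : List (Fm n)) (v : Fin n → M) :
    (sumL L).eval v = (L.map fun φ => φ.eval v).sum := by
  induction L with
  | nil => simp [sumL, Fm.eval, Tm.eval]
  | cons φ L ih => simp [sumL, comb, Fm.eval, ih]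

/-- sum of squared norms of terms -/
def sqs {n : ℕ} (U : List (Tm n)) : Fm n :=
  sumL (U.map fun t => .un ⟨fun x => x ^ 2, by fun_prop⟩ (.norm t))

theorem eval_sqs {n : ℕ} (U : List (Tm n)) (v : Fin n → M) :
    (sqs U).eval v = nn (U.map fun t => t.eval v) := by
  simp [sqs, eval_sumL, nn, List.map_map, Function.comp_def, Fm.eval]

/-- difference of two variables -/
def dif {n : ℕ} (i j : Fin n) : Tm n := .add (.var i) (.smul (-1) (.var j))

theorem eval_dif {n : ℕ} (i j : Fin n) (v : Fin n → M) : (dif i j).eval v = v i - v j := by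
  simp [dif, Tm.eval, sub_eq_add_neg]

/-- the parallelogram defect -/
def delta : Fm 0 :=
  supAll 2 (comb 1 (-2) (sqs [.add (.var 0) (.var 1), dif 0 1]) (sqs [.var 0, .var 1]))

theorem eval_par (v : Fin 2 → M) :
    (comb 1 (-2) (sqs [.add (.var 0) (.var 1), dif 0 1]) (sqs [.var 0, .var 1])).eval v
      = ‖v 0 + v 1‖ ^ 2 + ‖v 0 - v 1‖ ^ 2 - 2 * (‖v 0‖ ^ 2 + ‖v 1‖ ^ 2) := by
  simp only [comb, Fm.eval, eval_sqs, nn, List.map_cons, List.map_nil, List.sum_cons,
    List.sum_nil, eval_dif, ContinuousMap.coe_mk, Tm.eval]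
  ring

theorem delta_le (ε : ℝ) (hε : 0 ≤ ε)
    (h : ∀ x y : M, ‖x + y‖ ^ 2 + ‖x - y‖ ^ 2 ≤ (2 + ε) * (‖x‖ ^ 2 + ‖y‖ ^ 2)) :
    delta.eval (M := M) ![] ≤ 2 * ε := by
  refine supAll_le _ _ _ fun v hv => ?_
  rw [eval_par]
  have h0 : ‖v 0‖ ^ 2 ≤ 1 := pow_le_one₀ (norm_nonneg _) (hv 0)
  have h1 : ‖v 1‖ ^ 2 ≤ 1 := pow_le_one₀ (norm_nonneg _) (hv 1)
  have := h (v 0) (v 1)
  nlinarith

theorem par_of_delta (h : delta.eval (M := M) ![] ≤ 0) (x y : M) :
    ‖x + y‖ * ‖x + y‖ + ‖x - y‖ * ‖x - y‖ = 2 * (‖x‖ * ‖x‖ + ‖y‖ * ‖y‖) := by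
  have key : ∀ x y : M, ‖x + y‖ ^ 2 + ‖x - y‖ ^ 2 ≤ 2 * (‖x‖ ^ 2 + ‖y‖ ^ 2) := by
    intro x y
    obtain ⟨r, hr, hx, hy⟩ : ∃ r : ℝ, 0 < r ∧ r * ‖x‖ ≤ 1 ∧ r * ‖y‖ ≤ 1 := by
      refine ⟨1 / (1 + ‖x‖ + ‖y‖), by positivity, ?_, ?_⟩ <;>
      · rw [one_div_mul_eq_div, div_le_one (by positivity)]
        linarith [norm_nonneg x, norm_nonneg y]
    have h1 := (le_supAll 2 _ ![r • x, r • y] (fun i => by
      fin_cases i <;> simpa [norm_smul, abs_of_pos hr])).trans h
    rw [eval_par] at h1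
    simp only [Matrix.cons_val_zero, Matrix.cons_val_one, ← smul_add, ← smul_sub, norm_smul,
      Real.norm_eq_abs, mul_pow, sq_abs] at h1
    have h2 : r ^ 2 * (‖x + y‖ ^ 2 + ‖x - y‖ ^ 2) ≤ r ^ 2 * (2 * (‖x‖ ^ 2 + ‖y‖ ^ 2)) := by
      linarith
    exact le_of_mul_le_mul_left h2 (by positivity)
  have h1 := key x y
  have h2 := key (x + y) (x - y)
  have e1 : x + y + (x - y) = (2 : ℝ) • x := by rw [two_smul]; abel
  have e2 : x + y - (x - y) = (2 : ℝ) • y := by rw [two_smul]; abel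
  rw [e1, e2, norm_smul, norm_smul] at h2
  simp only [Real.norm_ofNat] at h2
  nlinarith

/-- domination of the sums of squares in the scalars -/
def Dom {m : ℕ} (U V : List (Tm m)) : Prop :=
  ∀ ξ : Fin m → ℝ, (V.map fun t => t.eval ξ ^ 2).sum ≤ (U.map fun t => t.eval ξ ^ 2).sum

/-- the sentence bounding one sum of squared norms by another -/
def kk (C : ℝ) {m : ℕ} (U V : List (Tm m)) : Fm 0 := supAll m (comb 1 (-C) (sqs V) (sqs U))

theorem kk_le {C : ℝ} (h : KP C M) {m : ℕ} {U V : List (Tm m)} (hd : Dom U V) :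
    (kk C U V).eval (M := M) ![] ≤ 0 := by
  refine supAll_le _ _ _ fun v _ => ?_
  have := h (U.map fun t => t.eval v) (V.map fun t => t.eval v) fun ξ => by
    have := hd fun i => ξ (v i)
    simpa [Q, List.map_map, Function.comp_def, eval_map] using this
  simp only [comb, Fm.eval, eval_sqs, ContinuousMap.coe_mk]
  linarith

/-- linear combination of the variables -/
def lin {m : ℕ} (c : Fin m → ℝ) : List (Fin m) → Tm m
  | [] => .zero
  | i :: L => .add (.smul (c i) (.var i)) (lin c L)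

theorem eval_lin {N : Type} [AddCommGroup N] [Module ℝ N] {m : ℕ} (c : Fin m → ℝ)
    (v : Fin m → N) : (lin c (List.finRange m)).eval v = ∑ i, c i • v i := by
  have : ∀ L : List (Fin m), (lin c L).eval v = (L.map fun i => c i • v i).sum := by
    intro L
    induction L with
    | nil => rfl
    | cons i L ih => simp [lin, Tm.eval, ih]
  rw [this, Fin.sum_univ_def]

theorem KP_of_kk {C : ℝ}
    (h : ∀ (m : ℕ) (U V : List (Tm m)), Dom U V → (kk C U V).eval (M := M) ![] ≤ 0) :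
    KP C M := by
  intro X Y hXY
  let W : Submodule ℝ M := Submodule.span ℝ {x | x ∈ X ++ Y}
  have : FiniteDimensional ℝ W := FiniteDimensional.span_of_finite ℝ (List.finite_toSet _)
  let b := Module.finBasis ℝ W
  obtain ⟨π, hπ⟩ := LinearMap.exists_extend (LinearMap.id : W →ₗ[ℝ] W)
  let tm : M → Tm (Module.finrank ℝ W) := fun x => lin (b.repr (π x)) (List.finRange _)
  have hd : Dom (X.map tm) (Y.map tm) := fun ξ => by
    have h1 := hXY ((b.constr ℝ ξ).comp π)
    have e : ∀ x, (b.constr ℝ ξ) (π x) = (tm x).eval ξ := fun x => by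
      rw [eval_lin, Module.Basis.constr_apply_fintype]
      rfl
    simpa [Q, List.map_map, Function.comp_def, e] using h1
  obtain ⟨r, hr, hb⟩ : ∃ r : ℝ, 0 < r ∧ ∀ i, ‖r • (b i : M)‖ ≤ 1 := by
    have h0 : 0 ≤ ∑ i, ‖(b i : M)‖ := Finset.sum_nonneg fun i _ => norm_nonneg _
    refine ⟨1 / (1 + ∑ i, ‖(b i : M)‖), by positivity, fun i => ?_⟩
    rw [norm_smul, Real.norm_of_nonneg (by positivity), one_div_mul_eq_div,
      div_le_one (by positivity)]
    have := Finset.single_le_sum (f := fun i => ‖(b i : M)‖) (fun i _ => norm_nonneg _)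
      (Finset.mem_univ i)
    linarith
  have h1 := (le_supAll _ _ (fun i => r • (b i : M)) hb).trans (h _ _ _ hd)
  have e : ∀ x ∈ X ++ Y, (tm x).eval (fun i => r • (b i : M)) = r • x := fun x hx => by
    have hx : x ∈ W := Submodule.subset_span hx
    have h2 : π x = ⟨x, hx⟩ := LinearMap.congr_fun hπ ⟨x, hx⟩
    have h3 := congrArg (fun z : W => (z : M)) (b.sum_repr ⟨x, hx⟩)
    simp only [AddSubmonoidClass.coe_finsetSum, SetLike.val_smul] at h3
    rw [eval_lin, h2]
    conv_rhs => rw [← h3, Finset.smul_sum]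
    exact Finset.sum_congr rfl fun i _ => smul_comm _ _ _
  have eX : ((X.map tm).map fun t => t.eval fun i => r • (b i : M)) = X.map fun x => r • x := by
    rw [List.map_map]
    exact List.map_congr_left fun x hx => e x (List.mem_append_left _ hx)
  have eY : ((Y.map tm).map fun t => t.eval fun i => r • (b i : M)) = Y.map fun x => r • x := by
    rw [List.map_map]
    exact List.map_congr_left fun x hx => e x (List.mem_append_right _ hx)
  simp only [comb, Fm.eval, eval_sqs, ContinuousMap.coe_mk, eX, eY, nn_smul] at h1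
  have h2 : r ^ 2 * nn Y ≤ r ^ 2 * (C * nn X) := by linarith
  exact le_of_mul_le_mul_left h2 (by positivity)

/-- small defect or the inequality -/
noncomputable def ax (ε C : ℝ) {m : ℕ} (U V : List (Tm m)) : Fm 0 :=
  .bin ⟨fun p => min (max (p.1 - ε) 0) (max p.2 0), by fun_prop⟩ delta (kk C U V)

theorem eval_ax (ε C : ℝ) {m : ℕ} (U V : List (Tm m)) :
    (ax ε C U V).eval (M := M) ![] = 0 ↔
      delta.eval (M := M) ![] ≤ ε ∨ (kk C U V).eval (M := M) ![] ≤ 0 := by
  simp only [ax, Fm.eval, ContinuousMap.coe_mk]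
  constructor
  · intro h
    by_contra hc
    push Not at hc
    have : 0 < min (max (delta.eval (M := M) ![] - ε) 0) (max ((kk C U V).eval (M := M) ![]) 0) :=
      lt_min (lt_max_of_lt_left (by linarith [hc.1])) (lt_max_of_lt_left hc.2)
    linarith
  · rintro (h | h)
    · rw [max_eq_right (by linarith)]
      exact min_eq_left (le_max_right _ _)
    · rw [max_eq_right h]
      exact min_eq_right (le_max_right _ _)

/-- `m` points of the ball far from each other -/
noncomputable def far (m : ℕ) : Fm m :=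
  sumL ((Finset.univ.filter fun p : Fin m × Fin m => p.1 ≠ p.2).toList.map fun p =>
    .un ⟨fun x => max (1 - x) 0, by fun_prop⟩ (.norm (dif p.1 p.2)))

theorem eval_far (m : ℕ) (v : Fin m → M) : (far m).eval v =
    ∑ p ∈ Finset.univ.filter fun p : Fin m × Fin m => p.1 ≠ p.2, max (1 - ‖v p.1 - v p.2‖) 0 := by
  rw [far, eval_sumL, List.map_map, Finset.sum_map_toList]
  simp only [Function.comp_def, Fm.eval, eval_dif, ContinuousMap.coe_mk]

theorem far_zero (u : ℕ → M) (h1 : ∀ i, ‖u i‖ ≤ 1) (h2 : ∀ i j, i ≠ j → 1 ≤ ‖u i - u j‖) (m : ℕ) :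
    (infAll m (far m)).eval (M := M) ![] = 0 := by
  apply le_antisymm
  · refine (infAll_le m _ (fun i => u i) fun i => h1 i).trans (le_of_eq ?_)
    rw [eval_far]
    refine Finset.sum_eq_zero fun p hp => max_eq_right ?_
    have := h2 p.1 p.2 fun h => (Finset.mem_filter.1 hp).2 (Fin.ext h)
    linarith
  · refine le_infAll _ _ _ fun v _ => ?_
    rw [eval_far]
    exact Finset.sum_nonneg fun p _ => le_max_right _ _

theorem not_fin (h : ∀ m, (infAll m (far m)).eval (M := M) ![] = 0) :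
    ¬ FiniteDimensional ℝ M := by
  intro hf
  have : ProperSpace M := FiniteDimensional.proper_real M
  obtain ⟨t, -, ht, hc⟩ := finite_cover_balls_of_compact (isCompact_closedBall (0 : M) 1)
    (e := 1 / 4) (by norm_num)
  have := ht.fintype
  have h1 : (1 / 2 : ℝ) ≤ (infAll _ (far (Fintype.card t + 1))).eval (M := M) ![] := by
    refine le_infAll _ _ _ fun v hv => ?_
    have : ∀ i, ∃ c : t, v i ∈ Metric.ball (c : M) (1 / 4) := fun i => by
      have := hc (show v i ∈ Metric.closedBall (0 : M) 1 by simpa using hv i)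
      simp only [Set.mem_iUnion] at this
      obtain ⟨c, hc, h⟩ := this
      exact ⟨⟨c, hc⟩, h⟩
    choose c hc using this
    obtain ⟨i, j, hij, he⟩ := Fintype.exists_ne_map_eq_of_card_lt c (by simp)
    have h2 : ‖v i - v j‖ ≤ 1 / 2 := by
      have a := hc i
      have b := hc j
      rw [he] at a
      have := dist_triangle_right (v i) (v j) (c j)
      rw [Metric.mem_ball] at a b
      rw [← dist_eq_norm]
      linarith
    rw [eval_far]
    refine le_trans ?_ (Finset.single_le_sum (f := fun p : Fin _ × Fin _ =>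
      max (1 - ‖v p.1 - v p.2‖) 0) (fun p _ => le_max_right _ _)
      (a := (i, j)) (Finset.mem_filter.2 ⟨Finset.mem_univ _, hij⟩))
    exact le_max_of_le_left (by linarith)
  rw [h] at h1
  norm_num at h1

end

/-- the theory of the spaces `HH` and `MM n` -/
def TT : Set (Fm 0) := {σ | σ.eval (M := HH) ![] = 0 ∧ ∀ n, σ.eval (M := MM n) ![] = 0}

theorem far_mem (m : ℕ) : infAll m (far m) ∈ TT := by
  refine ⟨far_zero bH (fun i => (bH_norm i).le) (fun i j => bH_sub) m, fun n => ?_⟩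
  refine far_zero (fun i => PiLp.single (PP n) (⟨0, DD_pos n⟩ : Fin (DD n)) (bH i))
    (fun i => by simp [bH_norm]) (fun i j hij => ?_) m
  rw [← PiLp.single_sub]
  simpa using bH_sub hij

theorem ax_mem (k : ℕ) : ∃ C : ℝ, ∀ (m : ℕ) (U V : List (Tm m)), Dom U V →
    ax (4 / (k + 2)) C U V ∈ TT := by
  choose c hc0 hc using MM_KP
  refine ⟨∑ n ∈ Finset.range k, c n, fun m U V hd => ⟨?_, fun n => ?_⟩⟩
  · rw [eval_ax]
    left
    have := delta_le (M := HH) 0 le_rfl fun x y => by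
      have := parallelogram_law_with_norm ℝ x y
      nlinarith
    have : (0 : ℝ) ≤ 4 / (k + 2) := by positivity
    linarith
  · rw [eval_ax]
    rcases lt_or_ge n k with h | h
    · right
      exact kk_le ((hc n).mono (Finset.single_le_sum (f := c) (fun i _ => hc0 i)
        (Finset.mem_range.2 h))) hd
    · left
      refine (delta_le _ (by positivity) (clarkson n)).trans ?_
      have : (k : ℝ) ≤ n := by exact_mod_cast h
      rw [← mul_div_assoc, show (2 : ℝ) * 2 = 4 by norm_num]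
      gcongr

theorem model_iso (M : Type) [NormedAddCommGroup M] [NormedSpace ℝ M] [CompleteSpace M]
    [SeparableSpace M] (h : Models M TT) : Nonempty (M ≃L[ℝ] HH) := by
  have hf := not_fin fun m => h _ (far_mem m)
  rcases le_or_gt (delta.eval (M := M) ![]) 0 with h0 | h0
  · letI : InnerProductSpace ℝ M := InnerProductSpace.ofNorm ℝ (par_of_delta h0)
    exact iso_of_KP hf (KP_hilb M)
  · obtain ⟨k, hk⟩ := exists_nat_gt (4 / delta.eval (M := M) ![])
    obtain ⟨C, hC⟩ := ax_mem k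
    refine iso_of_KP hf (KP_of_kk (C := C) fun m U V hd => ?_)
    refine ((eval_ax _ _ _ _).1 (h _ (hC m U V hd))).resolve_left (not_le.2 ?_)
    rw [div_lt_iff₀ h0] at hk
    rw [div_lt_iff₀ (by positivity)]
    nlinarith

theorem result : ∃ T : Set (Fm 0),
    (∀ (M N : Type) [NormedAddCommGroup M] [NormedSpace ℝ M] [CompleteSpace M] [SeparableSpace M]
      [NormedAddCommGroup N] [NormedSpace ℝ N] [CompleteSpace N] [SeparableSpace N],
      Models M T → Models N T → Nonempty (M ≃L[ℝ] N)) ∧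
    ∀ C : ℝ, ∃ (M N : Type) (_ : NormedAddCommGroup M) (_ : NormedSpace ℝ M) (_ : CompleteSpace M)
      (_ : SeparableSpace M) (_ : NormedAddCommGroup N) (_ : NormedSpace ℝ N) (_ : CompleteSpace N)
      (_ : SeparableSpace N), Models M T ∧ Models N T ∧
      ∀ S : M ≃L[ℝ] N, C < ‖(S : M →L[ℝ] N)‖ * ‖(S.symm : N →L[ℝ] M)‖ := by
  refine ⟨TT, fun M N _ _ _ _ _ _ _ _ hM hN => ?_, fun C => ?_⟩
  · obtain ⟨e⟩ := model_iso M hM
    obtain ⟨f⟩ := model_iso N hN
    exact ⟨e.trans f.symm⟩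
  · obtain ⟨n, hn⟩ := exists_nat_gt C
    refine ⟨MM n, HH, inferInstance, inferInstance, inferInstance, inferInstance, inferInstance,
      inferInstance, inferInstance, inferInstance, fun σ h => h.2 n, fun σ h => h.1, fun S => ?_⟩
    have := MM_far n S
    linarith

end Pool.Agent.Results.MP_4e4c79_lc.No
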